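import Pool.Agent.helper18.KU.Spec

/-! # Project ku, row ku:L3 (MP_974a61_co): a low vertex with three edges inside -/

set_option autoImplicit false

namespace Pool.Agent.KU

open Finset

noncomputable section

theorem L3_fin (hLC1 : LC1_stmt) (hLC3 : LC3_stmt) (hIN1 : IN1_stmt) (hIN3 : IN3_stmt)
    {V : Type} [DecidableEq V] (S : Finset V) (X : V → ℕ) (w : V → V → ℕ) (hC : Cone S X w)
    (hI : Irr S X w) (h5 : 5 ≤ S.card) (hIH : IH S) (v : V) (hv : v ∈ S)
    (hXv : X v = 1 ∨ X v = 2) (hdg : dg w S v = 3) (a b c : V) (ha : a ∈ S.erase v)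
    (hb : b ∈ S.erase v) (hc : c ∈ S.erase v) (hab : a ≠ b)
    (hw : ∀ u ∈ S.erase v, w v u = (if u = a then 1 else 0) + (if u = b then 1 else 0) +
      (if u = c then 1 else 0)) (hB : ¬ Blk S w a b) : St S X w := by
  have hins : insert v (S.erase v) = S := insert_erase hv
  have hcard : (S.erase v).card < S.card := card_erase_lt_of_mem hv
  have hva : v ≠ a := (ne_of_mem_erase ha).symm
  have hvb : v ≠ b := (ne_of_mem_erase hb).symm
  have hvc : v ≠ c := (ne_of_mem_erase hc).symm
  have haS := mem_of_mem_erase ha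
  have hbS := mem_of_mem_erase hb
  have hcS := mem_of_mem_erase hc
  rcases hXv with hX | hX
  · have h1 := hLC1 V S X w hC hI h5 v hv a haS b hbS hva hvb hab (by omega) hB
    have h2 := hIH _ _ _ hcard h1
    have h3 := hIN1 V (S.erase v) X w v a b c (notMem_erase v S) hC.sy ha hb hc hab hX hw h2
    rwa [hins] at h3
  · have h1 := hLC3 V S X w hC hI h5 v hv a haS b hbS c hcS hva hvb hvc hab hX hw hB
    have h2 := hIH _ _ _ hcard h1
    have h3 := hIN3 V (S.erase v) X w v a b c (notMem_erase v S) hC.sy ha hb hc hab hX hw h2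
    rwa [hins] at h3

theorem L3 (hNB : NB_stmt) (hDEG : DEG_stmt) (hF2 : F2_stmt) (hF3 : F3_stmt) (hLC1 : LC1_stmt)
    (hLC3 : LC3_stmt) (hIN1 : IN1_stmt) (hIN3 : IN3_stmt) : L3_stmt := by
  intro V _ S X w hC hI h5 hCr hIH v hv hvQ hlow hdg
  obtain ⟨d1, -, -, d4⟩ := hDEG V S X w hC hI (by omega)
  obtain ⟨-, d12, d13, -, d15⟩ := d1 v hv
  have hX : X v = 1 ∨ X v = 2 := by
    have := hC.root v hv
    omega
  have hsum : ∑ u ∈ S.erase v, w v u = 3 := by
    have h := hdg
    rw [d15] at h
    exact h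
  obtain ⟨a, ha, b, hb, c, hc, hw⟩ := (hNB V (S.erase v) (w v)).2.1 hsum
  have hva : v ≠ a := (ne_of_mem_erase ha).symm
  have hvb : v ≠ b := (ne_of_mem_erase hb).symm
  have hvc : v ≠ c := (ne_of_mem_erase hc).symm
  have haS := mem_of_mem_erase ha
  have hbS := mem_of_mem_erase hb
  have hcS := mem_of_mem_erase hc
  have hwa := hw a ha
  have hwb := hw b hb
  have hwc := hw c hc
  by_cases hab : a = b
  · by_cases hac : a = c
    · exfalso
      have := d4 v hv a haS hva
      rw [hwa, if_pos rfl, if_pos hab, if_pos hac] at this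
      omega
    · subst hab
      rw [if_pos rfl, if_neg hac] at hwa
      rw [if_neg (Ne.symm hac), if_pos rfl] at hwc
      have h7 := hF2 V S X w hC hI h5 v hv hvQ a haS c hcS hva hvc hac (by rw [hwa]) (by rw [hwc])
      refine L3_fin hLC1 hLC3 hIN1 hIN3 S X w hC hI h5 hIH v hv hX hdg a c a ha hc ha hac ?_ h7
      intro u hu
      rw [hw u hu]
      ring
  · by_cases hac : a = c
    · subst hac
      rw [if_pos rfl, if_neg hab] at hwa
      rw [if_neg (Ne.symm hab), if_pos rfl] at hwb
      have h7 := hF2 V S X w hC hI h5 v hv hvQ a haS b hbS hva hvb hab (by rw [hwa]) (by rw [hwb])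
      exact L3_fin hLC1 hLC3 hIN1 hIN3 S X w hC hI h5 hIH v hv hX hdg a b a ha hb ha hab hw h7
    · by_cases hbc : b = c
      · subst hbc
        rw [if_neg (Ne.symm hab), if_pos rfl] at hwb
        rw [if_pos rfl, if_neg hab] at hwa
        have h7 := hF2 V S X w hC hI h5 v hv hvQ b hbS a haS hvb hva (Ne.symm hab) (by rw [hwb])
          (by rw [hwa])
        refine L3_fin hLC1 hLC3 hIN1 hIN3 S X w hC hI h5 hIH v hv hX hdg b a b hb ha hb
          (Ne.symm hab) ?_ h7
        intro u hu
        rw [hw u hu]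
        ring
      · rw [if_pos rfl, if_neg hab, if_neg hac] at hwa
        rw [if_neg (Ne.symm hab), if_pos rfl, if_neg hbc] at hwb
        rw [if_neg (Ne.symm hac), if_neg (Ne.symm hbc), if_pos rfl] at hwc
        by_cases h1 : Blk S w a b
        · by_cases h2 : Blk S w a c
          · by_cases h3 : Blk S w b c
            · exact absurd ⟨h1, h2, h3⟩ (hF3 V S X w hC hI h5 hCr v hv hvQ a haS b hbS c hcS hva hvb
                hvc hab hac hbc (by rw [hwa]) (by rw [hwb]) (by rw [hwc]))
            · refine L3_fin hLC1 hLC3 hIN1 hIN3 S X w hC hI h5 hIH v hv hX hdg b c a hb hc ha hbc ?_ h3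
              intro u hu
              rw [hw u hu]
              ring
          · refine L3_fin hLC1 hLC3 hIN1 hIN3 S X w hC hI h5 hIH v hv hX hdg a c b ha hc hb hac ?_ h2
            intro u hu
            rw [hw u hu]
            ring
        · exact L3_fin hLC1 hLC3 hIN1 hIN3 S X w hC hI h5 hIH v hv hX hdg a b c ha hb hc hab hw h1

end

end Pool.Agent.KU
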