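import Pool.Agent.helper18.KU.Spec

/-! # Project ku, row ku:LC3 (MP_974a61_co): the smaller graph for IN3 -/

set_option autoImplicit false

namespace Pool.Agent.KU

open Finset

noncomputable section

/-- the condition `Cone.v` after adding the edge `a b` -/
theorem LC3_v (hEIN : EIN_stmt) {V : Type} [DecidableEq V] (S : Finset V) (X : V → ℕ)
    (w : V → V → ℕ) (hC : Cone S X w) (hI : Irr S X w) (v : V) (hv : v ∈ S) (a b : V)
    (hab : a ≠ b) (hB : ¬ Blk S w a b) (T : Finset V) (hT : T ⊆ S.erase v) (h2 : 2 ≤ T.card)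
    (ha : a ∈ T) (hb : b ∈ T) : E w T + 1 + 4 ≤ 3 * T.card := by
  obtain ⟨-, -, -, -, e5, -, -, -, -⟩ := hEIN V w hC.sy
  have hsub : T ⊆ S := hT.trans (erase_subset _ _)
  have h3 := hC.v T hsub h2
  have hTS : T ≠ S := by
    rintro rfl
    exact notMem_erase v T (hT hv)
  have h4 := (hI T hsub ⟨a, ha⟩ hTS).1
  have h5 : (T.card : ℤ) ≤ ∑ u ∈ T, (X u : ℤ) := by
    have h6 : ∑ u ∈ T, 1 ≤ ∑ u ∈ T, X u := sum_le_sum fun u hu => hC.root u (hsub hu)
    rw [sum_const, smul_eq_mul, mul_one] at h6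
    exact_mod_cast h6
  unfold f at h4
  rcases Nat.lt_or_ge T.card 4 with h7 | h7
  · rcases Nat.lt_or_ge T.card 3 with h8 | h8
    · have h9 : T.card = 2 := by omega
      have h10 : ({a, b} : Finset V) = T := by
        apply eq_of_subset_of_card_le
        · intro x hx
          rw [mem_insert, mem_singleton] at hx
          rcases hx with rfl | rfl
          · exact ha
          · exact hb
        · rw [h9, card_pair hab]
      rw [← h10, e5 a b hab, card_pair hab] at h3 ⊢
      have h11 : w a b ≠ 2 := fun h => hB (Or.inl h)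
      omega
    · have h9 : T.card = 3 := by omega
      have h10 : E w T ≠ 5 := fun h => hB (Or.inr ⟨T, ⟨hsub, h9, h⟩, ha, hb⟩)
      omega
  · omega

theorem LC3 (hEIN : EIN_stmt) (hFNS : FNS_stmt) (hDEG : DEG_stmt) : LC3_stmt := by
  intro V _ S X w hC hI h5 v hv a ha b hb c hc hva hvb hvc hab hXv hw hB
  obtain ⟨f1, -, f3, -, -, f6, f7, f8, -⟩ := hFNS V w X hC.sy
  obtain ⟨-, -, -, -, -, -, -, -, f9⟩ := hFNS V (addE w a b) X (f6 a b hab)
  obtain ⟨d1, -, -, -⟩ := hDEG V S X w hC hI (by omega)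
  obtain ⟨d11, -, -, -, d15⟩ := d1 v hv
  have hsub : S.erase v ⊆ S := erase_subset _ _
  have hdgT : ∀ T ⊆ S.erase v, a ∈ T → b ∈ T → c ∈ T → dg w T v = 3 := by
    intro T hT h1 h2 h3
    unfold dg
    rw [sum_congr rfl fun u hu => hw u (hT hu), sum_add_distrib, sum_add_distrib,
      sum_ite_eq', sum_ite_eq', sum_ite_eq', if_pos h1, if_pos h2, if_pos h3]
  have hae : a ∈ S.erase v := mem_erase.mpr ⟨hva.symm, ha⟩
  have hbe : b ∈ S.erase v := mem_erase.mpr ⟨hvb.symm, hb⟩
  have hce : c ∈ S.erase v := mem_erase.mpr ⟨hvc.symm, hc⟩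
  have hdg : dg w S v = 3 := by
    rw [d15]
    exact hdgT _ (Subset.refl _) hae hbe hce
  have hfe : f X w (S.erase v) = 2 := by
    rw [hXv, hdg] at d11
    push_cast at d11
    linarith
  refine ⟨f6 a b hab, ?_, ?_, ?_, ?_⟩
  · intro u hu
    have h1 := hC.root u (hsub hu)
    unfold addX
    omega
  · rw [f9, f8 _ a b hab, if_pos ⟨hae, hbe⟩, if_pos hce, hfe]
    norm_num
  · intro T hT
    rw [f9, f8 _ a b hab]
    by_cases hT0 : T = ∅
    · subst hT0
      rw [f1, if_neg (by simp), if_neg (by simp)]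
      norm_num
    · have hTS : T ≠ S := by
        rintro rfl
        exact notMem_erase v T (hT hv)
      have h3 := (hI T (hT.trans hsub) (nonempty_iff_ne_empty.mpr hT0) hTS).1
      by_cases h1 : a ∈ T ∧ b ∈ T
      · by_cases h2 : c ∈ T
        · rw [if_pos h1, if_pos h2]
          have h4 := hC.iv (insert v T) (insert_subset hv (hT.trans hsub))
          have hvT : v ∉ T := fun h => notMem_erase v S (hT h)
          rw [f3 T v hvT, hXv, hdgT T hT h1.1 h1.2 h2] at h4
          push_cast at h4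
          linarith
        · rw [if_pos h1, if_neg h2]
          linarith
      · rw [if_neg h1]
        split_ifs <;> linarith
  · intro T hT h2
    rw [f7 _ a b hab]
    by_cases h1 : a ∈ T ∧ b ∈ T
    · rw [if_pos h1]
      exact LC3_v hEIN S X w hC hI v hv a b hab hB T hT h2 h1.1 h1.2
    · rw [if_neg h1]
      have := hC.v T (hT.trans hsub) h2
      omega

end

end Pool.Agent.KU
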