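import Pool.Agent.helper18.KU.Spec

/-! # Project ku, row ku:S4 (MP_974a61_co): four vertices -/

set_option autoImplicit false

namespace Pool.Agent.KU

open Finset

noncomputable section

theorem S4_fin (hEIN : EIN_stmt) (hFNS : FNS_stmt) (hDEG : DEG_stmt) (hIN1 : IN1_stmt)
    {V : Type} [DecidableEq V] (S : Finset V) (X : V → ℕ) (w : V → V → ℕ) (hC : Cone S X w)
    (hI : Irr S X w) (h4 : S.card = 4) (hIH : IH S) (hE : E w S ≤ 7) (v : V) (hv : v ∈ S)
    (hXv : X v = 1) (hdg : dg w S v = 3) (a b c : V) (ha : a ∈ S.erase v) (hb : b ∈ S.erase v)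
    (hc : c ∈ S.erase v) (hab : a ≠ b)
    (hw : ∀ u ∈ S.erase v, w v u = (if u = a then 1 else 0) + (if u = b then 1 else 0) +
      (if u = c then 1 else 0)) (h1 : w a b ≤ 1) : St S X w := by
  obtain ⟨-, -, -, e4, e5, -, -, -, -⟩ := hEIN V w hC.sy
  obtain ⟨f1, -, -, -, -, f6, f7, f8, -⟩ := hFNS V w X hC.sy
  obtain ⟨d1, -, -, -⟩ := hDEG V S X w hC hI (by omega)
  obtain ⟨d11, -, -, -, d15⟩ := d1 v hv
  have hcard : (S.erase v).card = 3 := by rw [card_erase_of_mem hv, h4]
  have hins : insert v (S.erase v) = S := insert_erase hv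
  have hsub : S.erase v ⊆ S := erase_subset _ _
  have hfe : f X w (S.erase v) = 1 := by
    rw [hXv, hdg] at d11
    push_cast at d11
    linarith
  have hEe : E w (S.erase v) + 3 = E w S := by
    have h2 := e4 (S.erase v) v (notMem_erase v S)
    rw [hins, ← d15, hdg] at h2
    omega
  have hcone : Cone (S.erase v) X (addE w a b) := by
    refine ⟨f6 a b hab, fun u hu => hC.root u (hsub hu), ?_, ?_, ?_⟩
    · rw [f8 _ a b hab, if_pos ⟨ha, hb⟩, hfe]
      norm_num
    · intro T hT
      rw [f8 _ a b hab]
      by_cases hT0 : T = ∅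
      · subst hT0
        rw [f1, if_neg (by simp)]
        norm_num
      · have hTS : T ≠ S := by
          rintro rfl
          exact notMem_erase v T (hT hv)
        have h3 := (hI T (hT.trans hsub) (nonempty_iff_ne_empty.mpr hT0) hTS).1
        split_ifs <;> linarith
    · intro T hT h2
      rw [f7 _ a b hab]
      have h3 := hC.v T (hT.trans hsub) h2
      by_cases h5 : a ∈ T ∧ b ∈ T
      · rw [if_pos h5]
        have h6 : T.card ≤ 3 := by
          rw [← hcard]
          exact card_le_card hT
        rcases Nat.lt_or_ge T.card 3 with h7 | h7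
        · have h8 : T.card = 2 := by omega
          have h9 : ({a, b} : Finset V) = T := by
            apply eq_of_subset_of_card_le
            · intro x hx
              rw [mem_insert, mem_singleton] at hx
              rcases hx with rfl | rfl
              · exact h5.1
              · exact h5.2
            · rw [h8, card_pair hab]
          rw [← h9, e5 a b hab, card_pair hab]
          omega
        · have h8 : T = S.erase v := eq_of_subset_of_card_le hT (by omega)
          rw [h8, hcard]
          omega
      · rw [if_neg h5]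
        omega
  have hSt := hIH (S.erase v) X (addE w a b) (by rw [hcard, h4]; norm_num) hcone
  have := hIN1 V (S.erase v) X w v a b c (notMem_erase v S) hC.sy ha hb hc hab hXv hw hSt
  rwa [hins] at this

/-- two edges from `v` to `p` and one to `q` -/
theorem S4_two (hEIN : EIN_stmt) (hFNS : FNS_stmt) (hCRI : CRI_stmt)
    {V : Type} [DecidableEq V] (S : Finset V) (X : V → ℕ) (w : V → V → ℕ) (hC : Cone S X w)
    (hI : Irr S X w) (h4 : S.card = 4) (hE : E w S ≤ 7) (v p q : V) (hv : v ∈ S) (hp : p ∈ S)
    (hq : q ∈ S) (hvp : v ≠ p) (hvq : v ≠ q) (hpq : p ≠ q) (h1 : w v p = 2) (h2 : w v q = 1) :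
    w p q ≤ 1 := by
  by_contra h3
  obtain ⟨-, -, -, -, e5, e6, -, -, -⟩ := hEIN V w hC.sy
  obtain ⟨-, f2, -, -, -, -, -, -, -⟩ := hFNS V w X hC.sy
  have hpq2 : w p q ≤ 2 := by
    have h5 := hC.v {p, q} (by
      intro x hx
      rw [mem_insert, mem_singleton] at hx
      rcases hx with rfl | rfl
      · exact hp
      · exact hq) (by rw [card_pair hpq])
    rw [e5 p q hpq, card_pair hpq] at h5
    omega
  have hQ : Crit S w {v, p, q} := by
    refine ⟨?_, ?_, ?_⟩
    · intro x hx
      rw [mem_insert, mem_insert, mem_singleton] at hx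
      rcases hx with rfl | rfl | rfl
      · exact hv
      · exact hp
      · exact hq
    · rw [card_insert_of_notMem, card_pair hpq]
      rw [mem_insert, mem_singleton]
      rintro (h | h)
      · exact hvp h
      · exact hvq h
    · rw [e6 v p q hvp hvq hpq]
      omega
  obtain ⟨c1, -, c3, -, -⟩ := hCRI V S X w hC hI (by omega) _ hQ
  have hcard : (S \ {v, p, q}).card = 1 := by
    rw [card_sdiff_of_subset hQ.1, h4, hQ.2.1]
  obtain ⟨u, hu⟩ := card_eq_one.mp hcard
  rw [hu, f2 u] at c3
  have huS : u ∈ S := by
    have : u ∈ S \ {v, p, q} := by rw [hu]; exact mem_singleton_self u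
    exact (mem_sdiff.mp this).1
  have hXu : X u = 1 := by
    have h6 := hC.root u huS
    omega
  have hX : ∀ x ∈ S, X x = 1 := by
    intro x hx
    by_cases h : x ∈ ({v, p, q} : Finset V)
    · exact c1 x h
    · have h7 : x ∈ S \ {v, p, q} := mem_sdiff.mpr ⟨hx, h⟩
      rw [hu, mem_singleton] at h7
      rw [h7]
      exact hXu
  have hsum : ∑ x ∈ S, (X x : ℤ) = 4 := by
    rw [sum_congr rfl fun x hx => by rw [hX x hx]]
    rw [sum_const, h4]
    norm_num
  have htot := hC.tot
  unfold f at htot
  rw [hsum, h4] at htot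
  push_cast at htot
  omega

theorem S4 (hEIN : EIN_stmt) (hFNS : FNS_stmt) (hNB : NB_stmt) (hDEG : DEG_stmt) (hIN1 : IN1_stmt)
    (hCRI : CRI_stmt) (hT4 : T4_stmt) : S4_stmt := by
  intro V _ S X w hC hI h4 hIH
  obtain ⟨-, -, -, -, -, e6, -, -, -⟩ := hEIN V w hC.sy
  obtain ⟨d1, d2, d3, d4⟩ := hDEG V S X w hC hI (by omega)
  have htot := hC.tot
  unfold f at htot
  rw [h4] at htot
  push_cast at htot
  rcases Nat.lt_or_ge (E w S) 8 with hE | hE
  · -- some vertex has degree 4
    have hex : ∃ v ∈ S, X v + dg w S v ≤ 4 := by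
      by_contra hcon
      push Not at hcon
      have h5 : ∑ v ∈ S, 5 ≤ ∑ v ∈ S, (X v + dg w S v) := sum_le_sum fun v hv => hcon v hv
      rw [sum_const, smul_eq_mul, d2, h4] at h5
      omega
    obtain ⟨v, hv, hv4⟩ := hex
    obtain ⟨-, d12, d13, d14, d15⟩ := d1 v hv
    have hXr := hC.root v hv
    have hXv : X v = 1 := by
      by_contra h
      have h6 : X v = 2 := by omega
      have := d14 h6
      omega
    have hdg : dg w S v = 3 := by omega
    have hsum : ∑ u ∈ S.erase v, w v u = 3 := by
      rw [d15] at hdg
      exact hdg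
    obtain ⟨a, ha, b, hb, c, hc, hw⟩ := (hNB V (S.erase v) (w v)).2.1 hsum
    have hva : v ≠ a := (ne_of_mem_erase ha).symm
    have hvb : v ≠ b := (ne_of_mem_erase hb).symm
    have hvc : v ≠ c := (ne_of_mem_erase hc).symm
    have haS := mem_of_mem_erase ha
    have hbS := mem_of_mem_erase hb
    have hcS := mem_of_mem_erase hc
    have hE7 : E w S ≤ 7 := by omega
    have hwa := hw a ha
    have hwb := hw b hb
    have hwc := hw c hc
    by_cases hab : a = b
    · by_cases hac : a = c
      · -- all equal
        exfalso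
        have := d4 v hv a haS hva
        rw [hwa, if_pos rfl, if_pos hab, if_pos hac] at this
        omega
      · -- a = b ≠ c
        subst hab
        rw [if_pos rfl, if_neg hac] at hwa
        rw [if_neg (Ne.symm hac), if_pos rfl] at hwc
        have h7 := S4_two hEIN hFNS hCRI S X w hC hI h4 hE7 v a c hv haS hcS hva hvc hac hwa hwc
        refine S4_fin hEIN hFNS hDEG hIN1 S X w hC hI h4 hIH hE7 v hv hXv hdg a c a ha hc ha hac ?_ h7
        intro u hu
        rw [hw u hu]
        ring
    · by_cases hac : a = c
      · -- a = c ≠ b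
        subst hac
        rw [if_pos rfl, if_neg hab] at hwa
        rw [if_neg (Ne.symm hab), if_pos rfl] at hwb
        have h7 := S4_two hEIN hFNS hCRI S X w hC hI h4 hE7 v a b hv haS hbS hva hvb hab
          (by rw [hwa]) (by rw [hwb])
        exact S4_fin hEIN hFNS hDEG hIN1 S X w hC hI h4 hIH hE7 v hv hXv hdg a b a ha hb ha hab hw h7
      · by_cases hbc : b = c
        · -- b = c ≠ a
          subst hbc
          rw [if_neg (Ne.symm hab), if_pos rfl] at hwb
          rw [if_pos rfl, if_neg hab] at hwa
          have h7 := S4_two hEIN hFNS hCRI S X w hC hI h4 hE7 v b a hv hbS haS hvb hva (Ne.symm hab)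
            (by rw [hwb]) (by rw [hwa])
          refine S4_fin hEIN hFNS hDEG hIN1 S X w hC hI h4 hIH hE7 v hv hXv hdg b a b hb ha hb
            (Ne.symm hab) ?_ h7
          intro u hu
          rw [hw u hu]
          ring
        · -- all different
          by_cases h1 : w a b ≤ 1
          · exact S4_fin hEIN hFNS hDEG hIN1 S X w hC hI h4 hIH hE7 v hv hXv hdg a b c ha hb hc hab hw h1
          by_cases h2 : w a c ≤ 1
          · refine S4_fin hEIN hFNS hDEG hIN1 S X w hC hI h4 hIH hE7 v hv hXv hdg a c b ha hc hb hac ?_ h2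
            intro u hu
            rw [hw u hu]
            ring
          by_cases h3 : w b c ≤ 1
          · refine S4_fin hEIN hFNS hDEG hIN1 S X w hC hI h4 hIH hE7 v hv hXv hdg b c a hb hc ha hbc ?_ h3
            intro u hu
            rw [hw u hu]
            ring
          exfalso
          have hcard : ({a, b, c} : Finset V).card = 3 := by
            rw [card_insert_of_notMem, card_pair hbc]
            rw [mem_insert, mem_singleton]
            rintro (h | h)
            · exact hab h
            · exact hac h
          have h5 := hC.v {a, b, c} (by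
            intro x hx
            rw [mem_insert, mem_insert, mem_singleton] at hx
            rcases hx with rfl | rfl | rfl
            · exact haS
            · exact hbS
            · exact hcS) (by omega)
          rw [hcard, e6 a b c hab hac hbc] at h5
          omega
  · have hE8 : E w S = 8 := by omega
    have hsum : ∑ v ∈ S, (X v : ℤ) = 4 := by
      rw [hE8] at htot
      push_cast at htot
      linarith
    have hsumN : ∑ v ∈ S, X v = 4 := by exact_mod_cast hsum
    have hX : ∀ v ∈ S, X v = 1 := by
      have h5 : ∑ v ∈ S, 1 = ∑ v ∈ S, X v := by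
        rw [hsumN, sum_const, h4]
        rfl
      intro v hv
      exact ((sum_eq_sum_iff_of_le fun v hv => hC.root v hv).mp h5 v hv).symm
    exact hT4 V S X w h4 hC.sy hX hE8 hC.v

end

end Pool.Agent.KU
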